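import Pool.Agent.Helper70.ML.St

set_option autoImplicit false

namespace Pool.Agent.Helper47.ML

open Pool.Agent.Helper70.ML Pool.Agent.Helper75.MX
open scoped commutatorElement Nat

lemma ALT_comm {G : Type} [Group G] (k k' z z' : G) (hz : z ∈ Subgroup.center G)
    (hz' : z' ∈ Subgroup.center G) : ⁅k * z, k' * z'⁆ = ⁅k, k'⁆ := by
  have h1 : ∀ g, z * g * z⁻¹ = g := fun g => by
    rw [← Subgroup.mem_center_iff.1 hz g, mul_inv_cancel_right]
  have h2 : ∀ g, z' * g * z'⁻¹ = g := fun g => by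
    rw [← Subgroup.mem_center_iff.1 hz' g, mul_inv_cancel_right]
  have e1 : ⁅k * z, k' * z'⁆ = k * (z * (k' * z') * z⁻¹) * k⁻¹ * (k' * z')⁻¹ := by
    rw [commutatorElement_def]
    group
  have e2 : k * (k' * z') * k⁻¹ * (k' * z')⁻¹ = k * k' * (z' * k⁻¹ * z'⁻¹) * k'⁻¹ := by
    group
  rw [e1, h1, e2, h2, commutatorElement_def]

lemma ALT_card (m : ℕ) : Nat.card (alternatingGroup (Fin (m + 2))) = (m + 2)! / 2 := by
  have h1 := two_mul_nat_card_alternatingGroup (α := Fin (m + 2))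
  rw [Nat.card_perm, Nat.card_fin] at h1
  omega

lemma ALT_good {G : Type} [Group G] [Finite G] (k N : ℕ) (hk : Mix G k) (hN : Nat.card G = N)
    (h : 2 ^ k ≤ N ^ 6) : Good 6 G := by
  refine ⟨k, hk, ?_⟩
  rw [hN]
  have hN0 : 0 < N := by rw [← hN]; exact Nat.card_pos
  have hN' : (0 : ℝ) < N := by exact_mod_cast hN0
  have h1 : (2 : ℝ) ^ k ≤ (N : ℝ) ^ 6 := by exact_mod_cast h
  have h2 := Real.logb_le_logb_of_le (b := 2) (by norm_num) (by positivity) h1
  rw [Real.logb_pow, Real.logb_pow, Real.logb_self_eq_one (by norm_num), mul_one] at h2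
  exact_mod_cast h2

theorem hALT (hISO : StISO) (hNCM : StNCM) (hREL : StREL) (hCAR : StCAR) (hGEN : StGEN)
    (hAN : StAN) : StALT := by
  intro G _ _ hQ hA
  obtain ⟨hcomm, -, hodd⟩ := hQ
  obtain ⟨n, hn, ⟨e⟩⟩ := hA
  obtain ⟨m, rfl⟩ : ∃ m, n = m + 2 := ⟨n - 2, by omega⟩
  set ψ : G →* alternatingGroup (Fin (m + 2)) :=
    e.toMonoidHom.comp (QuotientGroup.mk' (Subgroup.center G)) with hψ
  have hsurj : Function.Surjective ψ := by
    rw [hψ, MonoidHom.coe_comp]
    exact e.surjective.comp (QuotientGroup.mk'_surjective _)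
  have hker : ψ.ker = Subgroup.center G := by
    ext g
    rw [MonoidHom.mem_ker, hψ, MonoidHom.comp_apply]
    constructor
    · intro h
      have h1 : (QuotientGroup.mk' (Subgroup.center G)) g = 1 := e.injective (by
        rw [map_one]
        exact h)
      rwa [← MonoidHom.mem_ker, QuotientGroup.ker_mk'] at h1
    · intro h
      have h1 : (QuotientGroup.mk' (Subgroup.center G)) g = 1 := by
        rwa [← MonoidHom.mem_ker, QuotientGroup.ker_mk']
      rw [h1, map_one]
  have hkodd : Odd (Nat.card ψ.ker) := by rw [hker]; exact hodd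
  by_cases hex : ∃ x y : G, ((ψ x : alternatingGroup (Fin (m + 2))) :
      Equiv.Perm (Fin (m + 2))).IsThreeCycle ∧
    ((ψ y : alternatingGroup (Fin (m + 2))) : Equiv.Perm (Fin (m + 2))).IsThreeCycle ∧
    ((ψ x : alternatingGroup (Fin (m + 2))) : Equiv.Perm (Fin (m + 2))).Disjoint
      (ψ y : alternatingGroup (Fin (m + 2))) ∧ x * y ≠ y * x
  · exact Or.inl (hNCM (m + 2) G ψ hsurj hker.le hkodd hex)
  · right
    push Not at hex
    obtain ⟨x, hx1, hx2, hx3⟩ := hREL m (by omega) G ψ hsurj hker.le hkodd hex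
    set K := Subgroup.closure (Set.range x) with hK
    have hmap : K.map ψ = ⊤ := by
      refine hGEN m (K.map ψ) ?_
      rintro c ⟨i, hi⟩
      refine ⟨x i, Subgroup.subset_closure ⟨i, rfl⟩, ?_⟩
      apply Subtype.ext
      rw [hx1 i, hi]
    have hdec : ∀ g : G, ∃ k ∈ K, ∃ z ∈ Subgroup.center G, g = k * z := by
      intro g
      have h1 : ψ g ∈ K.map ψ := by rw [hmap]; exact Subgroup.mem_top _
      obtain ⟨k, hk, hkg⟩ := h1
      refine ⟨k, hk, k⁻¹ * g, ?_, by group⟩
      rw [← hker, MonoidHom.mem_ker, map_mul, map_inv, hkg, inv_mul_cancel]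
    have hKtop : K = ⊤ := by
      rw [eq_top_iff, ← hcomm, commutator_def, Subgroup.commutator_le]
      intro g _ h _
      obtain ⟨k, hk, z, hz, rfl⟩ := hdec g
      obtain ⟨k', hk', z', hz', rfl⟩ := hdec h
      rw [ALT_comm k k' z z' hz hz', commutatorElement_def]
      exact K.mul_mem (K.mul_mem (K.mul_mem hk hk') (K.inv_mem hk)) (K.inv_mem hk')
    have hcard : Nat.card G ≤ Nat.card (alternatingGroup (Fin (m + 2))) := by
      have h1 := hCAR G m x hx2 hx3
      rw [← hK, hKtop, Subgroup.card_top] at h1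
      rw [ALT_card]
      exact h1
    have hbij : Function.Bijective ψ := hsurj.bijective_of_nat_card_le hcard
    have iso : G ≃* alternatingGroup (Fin (m + 2)) := MulEquiv.ofBijective ψ hbij
    obtain ⟨k, hk, hk2⟩ := hAN (m + 2) hn
    have hmix := (hISO (alternatingGroup (Fin (m + 2))) G ⟨iso.symm⟩).1 k hk
    refine ALT_good k ((m + 2)! / 2) hmix ?_ hk2
    rw [Nat.card_congr iso.toEquiv, ALT_card]

end Pool.Agent.Helper47.ML
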